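import Pool.Agent.H45.Lib.Ts3997aac3.Q263.CN.Main
import Pool.Agent.H45.Lib.S8.Y41.XT.L1
import Pool.Agent.H45.Lib.S8.H375R3.RZ5_PO

/-!
# The class number formula of a real quadratic field of prime discriminant
-/

set_option autoImplicit false

namespace Pool.Agent.H140.LD

open NumberField Module NumberField.InfinitePlace NumberField.Units Finset

section

variable {K : Type*} [Field K] [NumberField K]

lemma all_real {d : ℕ} (h2 : finrank ℚ K = 2) (hd : (d : ℤ) ≠ 1) (hs : Squarefree (d : ℤ)) (y : K)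
    (hy : y ^ 2 = (d : K)) (w : InfinitePlace K) : w.IsReal := by
  obtain ⟨b, h0, h1⟩ := Q263.CN.exists_basis hd hs h2 y (by rw [hy]; simp)
  rw [isReal_iff, ComplexEmbedding.isReal_iff]
  have hyc : starRingEnd ℂ (w.embedding y) = w.embedding y := by
    have h3 : (w.embedding y) ^ 2 = (d : ℂ) := by
      rw [← map_pow, hy, map_natCast]
    have hr : ((Real.sqrt d : ℝ) : ℂ) ^ 2 = (d : ℂ) := by
      rw [← Complex.ofReal_pow, Real.sq_sqrt (Nat.cast_nonneg d)]
      simp
    have h4 : (w.embedding y - (Real.sqrt d : ℝ)) * (w.embedding y + (Real.sqrt d : ℝ)) = 0 := by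
      linear_combination h3 - hr
    rcases mul_eq_zero.1 h4 with h5 | h5
    · rw [sub_eq_zero.1 h5, Complex.conj_ofReal]
    · rw [eq_neg_of_add_eq_zero_left h5, map_neg, Complex.conj_ofReal]
  ext x
  obtain ⟨r, s, rfl⟩ := Q263.CN.ex_coord b h0 h1 x
  rw [ComplexEmbedding.conjugate_coe_eq]
  simp only [map_add, map_mul, map_ratCast, hyc]

lemma signature_real {d : ℕ} (h2 : finrank ℚ K = 2) (hd : (d : ℤ) ≠ 1)
    (hs : Squarefree (d : ℤ)) (y : K) (hy : y ^ 2 = (d : K)) :
    nrRealPlaces K = 2 ∧ nrComplexPlaces K = 0 := by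
  have h1 : nrComplexPlaces K = 0 := by
    classical
    rw [nrComplexPlaces, Fintype.card_eq_zero_iff]
    refine ⟨fun w => ?_⟩
    exact not_isReal_iff_isComplex.2 w.2 (all_real h2 hd hs y hy w.1)
  have h3 := card_add_two_mul_card_eq_rank K
  rw [h1, h2] at h3
  exact ⟨by omega, h1⟩

lemma torsion_real (σ : K →+* ℝ) : torsionOrder K = 2 := by
  classical
  have h1 : torsionOrder K ≤ 2 := by
    rw [torsionOrder]
    have hsub : ∀ u : torsion K, (u : (𝓞 K)ˣ) = 1 ∨ (u : (𝓞 K)ˣ) = -1 := by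
      intro u
      have hu : IsOfFinOrder (u : (𝓞 K)ˣ) := (CommGroup.mem_torsion _).1 u.2
      rw [isOfFinOrder_iff_pow_eq_one] at hu
      obtain ⟨k, hk, hu⟩ := hu
      have h3 : (σ ((u : (𝓞 K)ˣ) : K)) ^ k = 1 := by
        rw [← map_pow]
        have h4 : (((u : (𝓞 K)ˣ) : K)) ^ k = 1 := by
          have := congrArg (fun v : (𝓞 K)ˣ => ((v : 𝓞 K) : K)) hu
          simpa using this
        rw [h4, map_one]
      have h5 : |σ ((u : (𝓞 K)ˣ) : K)| = 1 := by
        rw [← pow_eq_one_iff_of_nonneg (abs_nonneg _) hk.ne', ← abs_pow, h3, abs_one]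
      rcases (abs_eq zero_le_one).1 h5 with h6 | h6
      · left
        rw [← map_one σ] at h6
        have h7 := σ.injective h6
        ext
        simpa using h7
      · right
        have h8 : σ ((u : (𝓞 K)ˣ) : K) = σ (-1) := by rw [h6]; simp
        have h7 := σ.injective h8
        ext
        simpa using h7
    let f : torsion K → Bool := fun u => decide ((u : (𝓞 K)ˣ) = 1)
    have hf : Function.Injective f := by
      intro u v huv
      simp only [f, decide_eq_decide] at huv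
      apply Subtype.ext
      rcases hsub u with h | h
      · rw [h, huv.1 h]
      · rcases hsub v with h' | h'
        · rw [h', huv.2 h']
        · rw [h, h']
    calc Nat.card (torsion K) ≤ Nat.card Bool := Nat.card_le_card_of_injective f hf
      _ = 2 := by simp
  have h3 := even_torsionOrder K
  have h4 := torsionOrder_pos K
  obtain ⟨k, hk⟩ := h3
  omega

/-- the regulator -/
lemma regulator_real {d : ℕ} (h2 : finrank ℚ K = 2) (hd : (d : ℤ) ≠ 1)
    (hs : Squarefree (d : ℤ)) (y : K) (hy : y ^ 2 = (d : K)) (σ : K →+* ℝ) (ε : (𝓞 K)ˣ)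
    (hε : 1 < σ ((ε : 𝓞 K) : K)) (hgen : ∀ u : (𝓞 K)ˣ, ∃ n : ℤ, u = ε ^ n ∨ u = -ε ^ n) :
    regulator K = Real.log (σ ((ε : 𝓞 K) : K)) := by
  classical
  have hsig := signature_real h2 hd hs y hy
  have hcard : Fintype.card (InfinitePlace K) = 2 := by
    rw [card_eq_nrRealPlaces_add_nrComplexPlaces, hsig.1, hsig.2]
  have hrank : Units.rank K = 1 := by rw [Units.rank, hcard]
  set w0 : InfinitePlace K := InfinitePlace.mk (Complex.ofRealHom.comp σ) with hw0
  obtain ⟨w', hw'⟩ : ∃ w' : InfinitePlace K, w' ≠ w0 := by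
    have : Nontrivial (InfinitePlace K) := by
      rw [← Fintype.one_lt_card_iff_nontrivial, hcard]; norm_num
    exact exists_ne w0
  have hcard' : Fintype.card {w : InfinitePlace K // w ≠ w'} = 1 := by
    rw [Fintype.card_subtype_compl, Fintype.card_subtype_eq, hcard]
  have e : {w : InfinitePlace K // w ≠ w'} ≃ Fin (rank K) :=
    Fintype.equivOfCardEq (by rw [hcard', Fintype.card_fin, hrank])
  have h3 := regOfFamily_div_regulator (fun _ : Fin (rank K) => ε)
  have h4 : Subgroup.closure (Set.range (fun _ : Fin (rank K) => ε)) ⊔ torsion K = ⊤ := by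
    rw [eq_top_iff]
    intro u _
    have hmem : ε ∈ Subgroup.closure (Set.range (fun _ : Fin (rank K) => ε)) := by
      apply Subgroup.subset_closure
      exact ⟨⟨0, by omega⟩, rfl⟩
    have hneg : (-1 : (𝓞 K)ˣ) ∈ torsion K := by
      refine (CommGroup.mem_torsion _).2 ?_
      rw [isOfFinOrder_iff_pow_eq_one]
      exact ⟨2, by norm_num, by norm_num⟩
    obtain ⟨n, h | h⟩ := hgen u
    · rw [h]
      exact Subgroup.mem_sup_left (Subgroup.zpow_mem _ hmem n)
    · rw [h, ← neg_one_mul]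
      exact Subgroup.mul_mem _ (Subgroup.mem_sup_right hneg)
        (Subgroup.mem_sup_left (Subgroup.zpow_mem _ hmem n))
  rw [h4, Subgroup.index_top, Nat.cast_one, div_eq_one_iff_eq (regulator_pos K).ne'] at h3
  rw [← h3, regOfFamily_eq_det _ w' e]
  have hsub : Subsingleton {w : InfinitePlace K // w ≠ w'} :=
    Fintype.card_le_one_iff_subsingleton.1 hcard'.le
  rw [Matrix.det_eq_elem_of_subsingleton _ (⟨w0, hw'.symm⟩ : {w : InfinitePlace K // w ≠ w'}),
    Matrix.of_apply, mult_isReal ⟨w0, all_real h2 hd hs y hy w0⟩, Nat.cast_one, one_mul]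
  have h5 : w0 ((ε : 𝓞 K) : K) = σ ((ε : 𝓞 K) : K) := by
    rw [hw0, InfinitePlace.apply, RingHom.comp_apply]
    simp only [Complex.ofRealHom_eq_coe, Complex.norm_real, Real.norm_eq_abs]
    exact abs_of_pos (by linarith)
  rw [h5]
  exact abs_of_pos (Real.log_pos hε)

/-- the residue -/
lemma residue_real {d : ℕ} (h2 : finrank ℚ K = 2) (hd : (d : ℤ) ≠ 1)
    (hs : Squarefree (d : ℤ)) (h4 : d % 4 = 1) (y : K) (hy : y ^ 2 = (d : K)) (σ : K →+* ℝ)
    (ε : (𝓞 K)ˣ) (hε : 1 < σ ((ε : 𝓞 K) : K))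
    (hgen : ∀ u : (𝓞 K)ˣ, ∃ n : ℤ, u = ε ^ n ∨ u = -ε ^ n) :
    dedekindZeta_residue K * Real.sqrt d = 2 * classNumber K * Real.log (σ ((ε : 𝓞 K) : K)) := by
  have hsig := signature_real h2 hd hs y hy
  rw [dedekindZeta_residue_def, hsig.1, hsig.2, regulator_real h2 hd hs y hy σ ε hε hgen,
    torsion_real σ, Q263.CN.discr_quadratic hd hs h2 y (by rw [hy]; simp), if_pos (by omega)]
  have hd0 : (0 : ℝ) < d := by
    have : 0 < d := by omega
    exact_mod_cast this
  have h5 : |(((d : ℤ)) : ℝ)| = (d : ℝ) := by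
    rw [Int.cast_natCast, abs_of_pos hd0]
  rw [h5]
  have h6 : Real.sqrt d ≠ 0 := (Real.sqrt_pos.2 hd0).ne'
  field_simp
  push_cast
  ring

end

section

open Q263.CN

variable (p : ℕ) [hpf : Fact p.Prime]

open scoped Classical in
/-- the sign of the Gauss sum -/
lemma gauss_all (h2 : p ≠ 2) :
    gaussSum (qc p ℂ) ZMod.stdAddChar = (Real.sqrt p : ℝ) * Pool.Agent.H375R3.RZ5.eps p := by
  have hpo : Odd p := hpf.out.odd_of_ne_two h2
  have h := Pool.Agent.H375R3.RZ5.gauss 1 p hpo hpf.out.squarefree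
  have h1 : (Pool.Agent.H306R2.RZ.js 1 p : ℂ) = 1 := by
    unfold Pool.Agent.H306R2.RZ.js
    rw [jacobiSym.one_left]; simp
  rw [h1, one_mul] at h
  rw [← h]
  unfold gaussSum
  have hsum : ∀ f : ZMod p → ℂ, ∑ j : ZMod p, f j = ∑ b ∈ range p, f (b : ZMod p) := by
    intro f
    symm
    refine Finset.sum_bij (fun b _ => (b : ZMod p)) (fun b _ => mem_univ _) ?_ ?_ (fun b _ => rfl)
    · intro a ha b hb hab
      have := (ZMod.natCast_eq_natCast_iff' a b p).1 hab
      rwa [Nat.mod_eq_of_lt (mem_range.1 ha), Nat.mod_eq_of_lt (mem_range.1 hb)] at this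
    · intro j _
      exact ⟨j.val, mem_range.2 (ZMod.val_lt j), ZMod.natCast_zmod_val j⟩
  rw [hsum]
  refine sum_congr rfl fun b hb => ?_
  rw [qc_apply, ZMod.stdAddChar_apply, ZMod.toCircle_apply, ZMod.val_natCast,
    Nat.mod_eq_of_lt (mem_range.1 hb)]
  unfold Pool.Agent.H306R2.RZ.js
  rw [← jacobiSym.legendreSym.to_jacobiSym, legendreSym]
  push_cast
  congr 2
  ring

/-- the logarithmic sum -/
noncomputable def LL : ℝ := ∑ a : ZMod p, ((quadraticChar (ZMod p) a : ℤ) : ℝ) *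
  Real.log ‖1 - (ZMod.stdAddChar a : ℂ)‖

open Pool.Agent.Y682.XT Pool.Agent.Y41.XT in
lemma limit_real (h4 : p % 4 = 1) :
    DirichletCharacter.LFunction (qc p ℂ : DirichletCharacter ℂ p) 1 * (Real.sqrt p : ℝ) =
      -(LL p : ℂ) := by
  have h2 : p ≠ 2 := by omega
  have hne : (qc p ℂ : DirichletCharacter ℂ p) ≠ 1 := qc_ne_one p ℂ h2
  have hχ := prim_of_ne_one p hne
  have h1 := limit hχ hne
  have hinv : (qc p ℂ : DirichletCharacter ℂ p)⁻¹ = qc p ℂ := (qc_quad p ℂ).inv
  rw [hinv] at h1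
  have hg := gauss_all p h2
  have heps : Pool.Agent.H375R3.RZ5.eps p = 1 := by
    unfold Pool.Agent.H375R3.RZ5.eps
    rw [if_pos h4]
  rw [heps, mul_one] at hg
  rw [hg] at h1
  rw [h1]
  congr 1
  have heven : (qc p ℂ : DirichletCharacter ℂ p) (-1) = 1 := by
    rw [qc_apply, quadraticChar_neg_one (by rwa [ZMod.ringChar_zmod_n]), ZMod.card,
      ZMod.χ₄_nat_one_mod_four h4]
    simp
  have h2' : ∑ u : ZMod p, (qc p ℂ) u * Complex.log (1 - ZMod.stdAddChar u) =
      ∑ u : ZMod p, (qc p ℂ) u * (starRingEnd ℂ) (Complex.log (1 - ZMod.stdAddChar u)) := by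
    rw [← Equiv.sum_comp (Equiv.neg (ZMod p))]
    refine sum_congr rfl fun u _ => ?_
    have e1 : (qc p ℂ) (-u) = (qc p ℂ) u := by
      rw [← neg_one_mul, map_mul, heven, one_mul]
    simp only [Equiv.neg_apply]
    rw [e1]
    by_cases hu : u = 0
    · subst hu
      rw [chi_zero hne]
      simp
    · congr 1
      have hs := slit (std_norm u) (std_ne_one hu)
      rw [← Complex.log_conj _ (Complex.mem_slitPlane_iff_arg.mp hs).1]
      congr 1
      rw [map_sub, map_one, AddChar.map_neg_eq_inv]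
      congr 1
      rw [Complex.inv_def, Complex.normSq_eq_norm_sq, std_norm]
      simp
  have h5 : 2 * ∑ u : ZMod p, (qc p ℂ) u * Complex.log (1 - ZMod.stdAddChar u) =
      2 * (LL p : ℂ) := by
    rw [two_mul]
    nth_rewrite 2 [h2']
    unfold LL
    push_cast
    rw [← sum_add_distrib, mul_sum]
    refine sum_congr rfl fun u _ => ?_
    rw [← mul_add, Complex.add_conj, Complex.log_re, qc_apply]
    push_cast
    ring
  exact mul_left_cancel₀ two_ne_zero h5

end

section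

open Q263.CN

theorem cnf_real_aux (p : ℕ) [Fact p.Prime] (h4 : p % 4 = 1)
    (L : Type) [Field L] [NumberField L] [IsCyclotomicExtension {p} ℚ L]
    (K : Type*) [Field K] [NumberField K] (hK : finrank ℚ K = 2)
    (y : K) (hy : y ^ 2 = (p : K)) (σ : K →+* ℝ) (ε : (𝓞 K)ˣ) (hε : 1 < σ ((ε : 𝓞 K) : K))
    (hgen : ∀ u : (𝓞 K)ˣ, ∃ n : ℤ, u = ε ^ n ∨ u = -ε ^ n) :
    2 * classNumber K * Real.log (σ ((ε : 𝓞 K) : K)) = -LL p := by
  have hp : p.Prime := Fact.out
  have h2 : p ≠ 2 := by omega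
  have hsf : Squarefree ((p : ℤ)) := Int.squarefree_natCast.2 hp.squarefree
  have hp1 : ((p : ℤ)) ≠ 1 := by have := hp.one_lt; omega
  have htau : (tau p L) ^ 2 = (p : L) := by
    rw [tau_sq p L h2]
    have h5 : quadraticChar (ZMod p) (-1) = 1 := by
      rw [quadraticChar_neg_one (by rwa [ZMod.ringChar_zmod_n]), ZMod.card,
        ZMod.χ₄_nat_one_mod_four h4]
    rw [h5]
    push_cast
    ring
  have hmem : tau p L ∈ QF p L := IntermediateField.mem_adjoin_simple_self ℚ _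
  set z : QF p L := ⟨tau p L, hmem⟩ with hz
  have hzsq : z ^ 2 = (p : QF p L) := by
    apply Subtype.ext
    push_cast
    rw [hz]
    simp only
    rw [htau]
  obtain ⟨e⟩ := iso_quadratic (K₁ := K) (K₂ := QF p L) hp1 hsf hK (finrank_QF p L h2) y
    (by rw [hy]; simp) z (by rw [hzsq]; simp)
  rw [classNumber_iso e]
  -- transport of the units
  set E : (𝓞 K)ˣ ≃* (𝓞 (QF p L))ˣ :=
    Units.mapEquiv (RingOfIntegers.mapRingEquiv e).toMulEquiv with hE
  have hEv : ∀ u : (𝓞 K)ˣ, (((E u : (𝓞 (QF p L))ˣ) : 𝓞 (QF p L)) : QF p L) = e ((u : 𝓞 K) : K) :=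
    fun u => rfl
  have hEneg : ∀ u : (𝓞 K)ˣ, E (-u) = -E u := by
    intro u
    have h : (((E (-u) : (𝓞 (QF p L))ˣ) : 𝓞 (QF p L)) : QF p L) =
        -(((E u : (𝓞 (QF p L))ˣ) : 𝓞 (QF p L)) : QF p L) := by
      rw [hEv, hEv, Units.val_neg, ← map_neg e]
      rfl
    apply Units.ext
    apply RingOfIntegers.ext
    rw [h, Units.val_neg]
    rfl
  have hσ : ∀ x : K, (σ.comp e.symm.toRingHom) (e x) = σ x := by
    intro x
    simp
  have hres := residue_real (K := QF p L) (finrank_QF p L h2) hp1 hsf h4 z hzsq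
    (σ.comp e.symm.toRingHom) (E ε) (by rw [hEv, hσ]; exact hε) (by
      intro u
      obtain ⟨n, h | h⟩ := hgen (E.symm u)
      · refine ⟨n, Or.inl ?_⟩
        rw [← map_zpow, ← h, MulEquiv.apply_symm_apply]
      · refine ⟨n, Or.inr ?_⟩
        rw [← map_zpow, ← hEneg, ← h, MulEquiv.apply_symm_apply])
  rw [hEv, hσ] at hres
  rw [← hres]
  have h5 := residue_QF p L h2
  have h6 := limit_real p h4
  rw [← h5] at h6
  exact_mod_cast h6

/-- **Dirichlet's class number formula** for `K = ℚ(√p)`, `p ≡ 1 (mod 4)` -/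
theorem cnf_real (p : ℕ) [Fact p.Prime] (h4 : p % 4 = 1)
    (K : Type*) [Field K] [NumberField K] (hK : finrank ℚ K = 2)
    (y : K) (hy : y ^ 2 = (p : K)) (σ : K →+* ℝ) (ε : (𝓞 K)ˣ) (hε : 1 < σ ((ε : 𝓞 K) : K))
    (hgen : ∀ u : (𝓞 K)ˣ, ∃ n : ℤ, u = ε ^ n ∨ u = -ε ^ n) :
    2 * classNumber K * Real.log (σ ((ε : 𝓞 K) : K)) = -LL p := by
  have hne : NeZero ((p : ℕ) : ℚ) := ⟨by exact_mod_cast (Fact.out : p.Prime).ne_zero⟩
  have hcyc : IsCyclotomicExtension {p} ℚ (CyclotomicField p ℚ) :=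
    CyclotomicField.isCyclotomicExtension p ℚ
  have hnf : NumberField (CyclotomicField p ℚ) := IsCyclotomicExtension.numberField {p} ℚ _
  exact cnf_real_aux p h4 (CyclotomicField p ℚ) K hK y hy σ ε hε hgen

end

end Pool.Agent.H140.LD
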